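import Mathlib
import Pool.Agent.Q25.IM.Final

/-!
# An `E`-unitary special inverse monoid with right reversible prefix monoid and undecidable word
problem

The group image is `F × F' × ℤ` with free groups `F`, `F'`; the prefix monoid is generated by
elements of level one generating everything positive in high level, and by finitely many elements
of level zero whose submonoid has undecidable membership problem.
-/

namespace Pool.Agent.Results.MP_ff4305_al.Undecidable

open Q25.IM

/-- There is a finitely presented special inverse monoid `S` (given by the alphabet `Fin n` and a
finite list `R` of relators) such that `S` is `E`-unitary, its prefix monoid is right reversible,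
its maximal group image has decidable word problem, but `S` has undecidable word problem. -/
theorem result : ∃ (n : ℕ) (R : List (List (Fin n ⊕ Fin n))),
    EUnitary (InvMon R) ∧
    RightReversible (prefixMonoid R) ∧
    ComputablePred (fun uv : List (Fin n ⊕ Fin n) × List (Fin n ⊕ Fin n) =>
      gval R uv.1 = gval R uv.2) ∧
    ¬ ComputablePred (fun uv : List (Fin n ⊕ Fin n) × List (Fin n ⊕ Fin n) =>
      val R uv.1 = val R uv.2) :=
  main

end Pool.Agent.Results.MP_ff4305_al.Undecidable
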